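import Pool.Agent.Work.MP_88ec28_an.Final

/-!
# MP_88ec28_an, Q1: the Furstenberg boundary action of a normal quantum subgroup extends

`G : CQG` is a compact quantum group, given by its Hopf *-algebra with the basis of matrix
coefficients of its irreducible unitary corepresentations; its dual is the discrete quantum group
`Γ`.  `S` is the set of irreducible representations of a quantum subgroup `Λ` of `Γ`, normal in the
sense of the problem (`IsConjInvariant`) or in the usual sense (`IsAdInvariant`).  `E` is a unital
C*-algebra with an action `a` of `Λ` which is a `Λ`-boundary and `Λ`-injective; this is the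
Furstenberg boundary `C(∂_F Λ)` with its canonical action.

There is exactly one action `b` of `Γ` (`QAction G Set.univ E`) on `E` whose restriction to `Λ`
is `a`.
-/

open scoped TensorProduct CStarAlgebra
open Pool.Agent.Work.MP_88ec28_an

namespace Pool.Agent.Results.MP_88ec28_an.NormalExtension

theorem result (G : CQG) (S : Set G.Irr) (hS : G.IsQuantumSubgroup S)
    (hN : G.IsConjInvariant S ∨ G.IsAdInvariant S)
    (E : Type) [CStarAlgebra E] [PartialOrder E] [StarOrderedRing E] [Nontrivial E]
    (a : QAction G S E) (hb : IsBoundary a) (hi : IsInjective a) :
    ∃! b : QAction G Set.univ E, ∀ γ : S, b.comp ⟨γ, trivial⟩ = a.comp γ :=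
  exists_unique_extension hS hN a hb hi

end Pool.Agent.Results.MP_88ec28_an.NormalExtension
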